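import Mathlib
import Pool.Agent.Lib.MP_448b0d_an.H37.Higher

open Metric Set Filter Topology

namespace Pool.Agent.Results.MP_448b0d_an.LiouvilleAllDimensions

/-- The hypersurface `V = {f₁(z₁) + ... + f_n(z_n) = 0}` in `ℂⁿ`. -/
def hypersurface {n : ℕ} (f : Fin n → ℂ → ℂ) : Set (Fin n → ℂ) :=
  {z | ∑ i, f i (z i) = 0}

/-- The points of `V` at which at least one of the derivatives `f_i'(z_i)` is not zero. -/
def smoothPart {n : ℕ} (f : Fin n → ℂ → ℂ) : Set (Fin n → ℂ) :=
  {z | ∑ i, f i (z i) = 0 ∧ ∃ i, deriv (f i) (z i) ≠ 0}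

/-- `F` is holomorphic on the set `A`: near each point of `A` it agrees on `A` with a holomorphic
function of the ambient space. Values of `F` off `A` play no role. -/
def HolomorphicOn {n : ℕ} (A : Set (Fin n → ℂ)) (F : (Fin n → ℂ) → ℂ) : Prop :=
  ∀ p ∈ A, ∃ (U : Set (Fin n → ℂ)) (G : (Fin n → ℂ) → ℂ), IsOpen U ∧ p ∈ U ∧
    DifferentiableOn ℂ G U ∧ ∀ z ∈ A ∩ U, F z = G z

open Pool.Agent.Lib.MP_448b0d_an.H37 in
lemma discHol_of {n : ℕ} {A : Set (Fin n → ℂ)} {F : (Fin n → ℂ) → ℂ}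
    (hF : HolomorphicOn A F) : DiscHol A F := by
  constructor
  · intro p hp
    obtain ⟨U, G, hU, hpU, hG, hFG⟩ := hF p hp
    have h1 : ContinuousWithinAt G A p :=
      ((hG p hpU).differentiableAt (hU.mem_nhds hpU)).continuousAt.continuousWithinAt
    refine h1.congr_of_eventuallyEq ?_ (hFG p ⟨hp, hpU⟩)
    filter_upwards [mem_nhdsWithin_of_mem_nhds (hU.mem_nhds hpU), self_mem_nhdsWithin] with z h2 h3
    exact hFG z ⟨h3, h2⟩
  · intro c t₀ hc hcA
    obtain ⟨U, G, hU, hpU, hG, hFG⟩ := hF (c t₀) hcA.self_of_nhds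
    have hc0 : DifferentiableAt ℂ c t₀ := hc.self_of_nhds
    have h1 : DifferentiableAt ℂ (fun t => G (c t)) t₀ :=
      DifferentiableAt.comp (f := c) (g := G) t₀
        ((hG _ hpU).differentiableAt (hU.mem_nhds hpU)) hc0
    refine h1.congr_of_eventuallyEq ?_
    filter_upwards [hcA, hc0.continuousAt.eventually_mem (hU.mem_nhds hpU)] with t h2 h3
    exact hFG _ ⟨h2, h3⟩

lemma holomorphicOn_inv_sub {n : ℕ} {A : Set (Fin n → ℂ)} {F : (Fin n → ℂ) → ℂ}
    (hF : HolomorphicOn A F) {w : ℂ} (hw : ∀ z ∈ A, F z ≠ w) :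
    HolomorphicOn A (fun z => (F z - w)⁻¹) := by
  intro p hp
  obtain ⟨U, G, hU, hpU, hG, hFG⟩ := hF p hp
  have hGc : ContinuousOn G U := hG.continuousOn
  have hU' : IsOpen (U ∩ G ⁻¹' {w}ᶜ) := hGc.isOpen_inter_preimage hU isOpen_compl_singleton
  refine ⟨U ∩ G ⁻¹' {w}ᶜ, fun z => (G z - w)⁻¹, hU', ⟨hpU, ?_⟩, ?_, ?_⟩
  · simp only [mem_preimage, mem_compl_iff, mem_singleton_iff]
    rw [← hFG p ⟨hp, hpU⟩]
    exact hw p hp
  · intro z hz
    have h1 : DifferentiableWithinAt ℂ G (U ∩ G ⁻¹' {w}ᶜ) z := (hG z hz.1).mono inter_subset_left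
    apply (h1.sub_const w).fun_inv
    intro h
    exact hz.2 (sub_eq_zero.mp h)
  · intro z hz
    simp only
    rw [hFG z ⟨hz.1, hz.2.1⟩]

/-- If the values of `F` are not dense, some `(F - w)⁻¹` is bounded. -/
lemma exists_bound {X : Type*} {A : Set X} {F : X → ℂ} (h : ¬ Dense (F '' A)) :
    ∃ (w : ℂ) (C : ℝ), (∀ z ∈ A, F z ≠ w) ∧ ∀ z ∈ A, ‖(F z - w)⁻¹‖ ≤ C := by
  rw [Metric.dense_iff] at h
  push Not at h
  obtain ⟨w, r, hr, hw⟩ := h
  have hfar : ∀ z ∈ A, r ≤ ‖F z - w‖ := by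
    intro z hz
    by_contra hlt
    push Not at hlt
    have h1 : F z ∈ ball w r ∩ F '' A := ⟨by rw [mem_ball, dist_eq_norm]; exact hlt, z, hz, rfl⟩
    rw [hw] at h1
    exact h1
  refine ⟨w, r⁻¹, ?_, ?_⟩
  · intro z hz h0
    have := hfar z hz
    rw [h0, sub_self, norm_zero] at this
    linarith
  · intro z hz
    rw [norm_inv]
    exact inv_anti₀ hr (hfar z hz)

open Pool.Agent.Lib.MP_448b0d_an.H37 in
/-- **Liouville property of the hypersurface `f₁(z₁) + ... + f_n(z_n) = 0`.** -/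
theorem result :
    -- `n ≥ 3` variables
    (∀ n : ℕ, 3 ≤ n → ∀ f : Fin n → ℂ → ℂ, (∀ i, Differentiable ℂ (f i)) →
      (∀ i, ∃ a b, f i a ≠ f i b) →
      -- entire functions on `ℂⁿ` that are bounded on `V`
      (∀ F : (Fin n → ℂ) → ℂ, Differentiable ℂ F → (∃ C : ℝ, ∀ z ∈ hypersurface f, ‖F z‖ ≤ C) →
        ∀ z ∈ hypersurface f, ∀ w ∈ hypersurface f, F z = F w) ∧
      -- holomorphic functions on `V` whose values are not dense in `ℂ`
      (∀ F : (Fin n → ℂ) → ℂ, HolomorphicOn (hypersurface f) F →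
        ¬ Dense (F '' hypersurface f) →
        ∀ z ∈ hypersurface f, ∀ w ∈ hypersurface f, F z = F w) ∧
      -- the same on the smooth part only
      (∀ F : (Fin n → ℂ) → ℂ, HolomorphicOn (smoothPart f) F →
        ¬ Dense (F '' smoothPart f) →
        ∀ z ∈ smoothPart f, ∀ w ∈ smoothPart f, F z = F w)) ∧
    -- for `n = 1` and `n = 2` it fails
    (∀ n : ℕ, n = 1 ∨ n = 2 → ∃ f : Fin n → ℂ → ℂ, (∀ i, Differentiable ℂ (f i)) ∧
      (∀ i, ∃ a b, f i a ≠ f i b) ∧ ∃ F : (Fin n → ℂ) → ℂ, Differentiable ℂ F ∧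
        (∃ C : ℝ, ∀ z ∈ hypersurface f, ‖F z‖ ≤ C) ∧
        ∃ z ∈ hypersurface f, ∃ w ∈ hypersurface f, F z ≠ F w) := by
  have key : ∀ n : ℕ, 3 ≤ n → ∀ f : Fin n → ℂ → ℂ, (∀ i, Differentiable ℂ (f i)) →
      (∀ i, ∃ a b, f i a ≠ f i b) → ∀ F : (Fin n → ℂ) → ℂ, HolomorphicOn (smoothPart f) F →
        ¬ Dense (F '' smoothPart f) →
        ∀ z ∈ smoothPart f, ∀ w ∈ smoothPart f, F z = F w := by
    intro n hn f hf hfc F hF hd z hz w hw
    obtain ⟨u, C, hu, hC⟩ := exists_bound hd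
    have h1 := const_all hn hf hfc (discHol_of (holomorphicOn_inv_sub hF hu)) (C := C) hC z hz w hw
    exact sub_left_injective (inv_injective h1)
  have key2 : ∀ n : ℕ, 3 ≤ n → ∀ f : Fin n → ℂ → ℂ, (∀ i, Differentiable ℂ (f i)) →
      (∀ i, ∃ a b, f i a ≠ f i b) → ∀ F : (Fin n → ℂ) → ℂ, HolomorphicOn (hypersurface f) F →
        ¬ Dense (F '' hypersurface f) →
        ∀ z ∈ hypersurface f, ∀ w ∈ hypersurface f, F z = F w := by
    intro n hn f hf hfc F hF hd z hz w hw
    have hsub : smoothPart f ⊆ hypersurface f := fun z hz => hz.1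
    have hF' : HolomorphicOn (smoothPart f) F := by
      intro p hp
      obtain ⟨U, G, hU, hpU, hG, hFG⟩ := hF p (hsub hp)
      exact ⟨U, G, hU, hpU, hG, fun z hz => hFG z ⟨hsub hz.1, hz.2⟩⟩
    have hd' : ¬ Dense (F '' smoothPart f) := fun h => hd (h.mono (image_mono hsub))
    exact const_of_reg (by omega) hf hfc (discHol_of hF).1
      (fun p hp q hq => key n hn f hf hfc F hF' hd' p hp q hq) hz hw
  refine ⟨fun n hn f hf hfc => ⟨?_, key2 n hn f hf hfc, key n hn f hf hfc⟩, ?_⟩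
  · intro F hF hb
    apply key2 n hn f hf hfc F
    · intro p _
      exact ⟨univ, F, isOpen_univ, mem_univ _, hF.differentiableOn, fun _ _ => rfl⟩
    · obtain ⟨C, hC⟩ := hb
      intro hd
      obtain ⟨u, hu1, hu2⟩ := hd.inter_open_nonempty (ball ((|C| + 1 : ℝ) : ℂ) 1) isOpen_ball
        ⟨_, mem_ball_self one_pos⟩
      obtain ⟨z, hz, rfl⟩ := hu2
      have h1 := hC z hz
      rw [mem_ball, dist_eq_norm] at hu1
      have h2 : ‖((|C| + 1 : ℝ) : ℂ)‖ = |C| + 1 := by
        rw [Complex.norm_real, Real.norm_eq_abs, abs_of_nonneg (by positivity)]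
      have h3 : ‖((|C| + 1 : ℝ) : ℂ)‖ ≤ ‖F z‖ + ‖F z - ((|C| + 1 : ℝ) : ℂ)‖ := by
        have : ((|C| + 1 : ℝ) : ℂ) = F z - (F z - ((|C| + 1 : ℝ) : ℂ)) := by ring
        calc ‖((|C| + 1 : ℝ) : ℂ)‖ = ‖F z - (F z - ((|C| + 1 : ℝ) : ℂ))‖ := by rw [← this]
          _ ≤ _ := norm_sub_le _ _
      have h4 := le_abs_self C
      linarith
  · rintro n (rfl | rfl)
    · refine ⟨fun _ => Complex.sin, fun _ => Complex.differentiable_sin,
        fun _ => ⟨0, (Real.pi / 2 : ℝ), ?_⟩, fun z => Complex.cos (z 0), ?_, ⟨1, ?_⟩, ?_⟩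
      · change Complex.sin 0 ≠ Complex.sin ((Real.pi / 2 : ℝ) : ℂ)
        rw [Complex.sin_zero, ← Complex.ofReal_sin, Real.sin_pi_div_two]
        norm_num
      · fun_prop
      · intro z hz
        have hz' : Complex.sin (z 0) = 0 := by
          simpa [hypersurface] using hz
        have h1 := Complex.sin_sq_add_cos_sq (z 0)
        rw [hz'] at h1
        have h2 : ‖Complex.cos (z 0)‖ ^ 2 = 1 := by
          rw [← norm_pow]
          have : Complex.cos (z 0) ^ 2 = 1 := by linear_combination h1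
          rw [this, norm_one]
        nlinarith [norm_nonneg (Complex.cos (z 0))]
      · refine ⟨fun _ => 0, by simp [hypersurface], fun _ => (Real.pi : ℂ), ?_, ?_⟩
        · simp [hypersurface]
        · simp only [Complex.cos_zero, Complex.cos_pi]
          norm_num
    · refine ⟨![Complex.exp, fun z => - Complex.exp z], ?_, ?_,
        fun z => Complex.cosh ((z 0 - z 1) / 2), ?_, ⟨1, ?_⟩, ?_⟩
      · intro i
        fin_cases i
        · exact Complex.differentiable_exp
        · exact Complex.differentiable_exp.neg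
      · have hne : Complex.exp 0 ≠ Complex.exp 1 := by
          intro h
          have h1 : ‖Complex.exp 0‖ = ‖Complex.exp 1‖ := by rw [h]
          rw [Complex.norm_exp, Complex.norm_exp] at h1
          simp at h1
          have h5 := Real.add_one_lt_exp (one_ne_zero : (1 : ℝ) ≠ 0)
          linarith
        intro i
        fin_cases i
        · exact ⟨0, 1, hne⟩
        · exact ⟨0, 1, fun h => hne (neg_injective h)⟩
      · fun_prop
      · intro z hz
        have hz' : Complex.exp (z 0) = Complex.exp (z 1) := by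
          have : Complex.exp (z 0) + - Complex.exp (z 1) = 0 := by
            simpa [hypersurface, Fin.sum_univ_two] using hz
          linear_combination this
        rw [Complex.exp_eq_exp_iff_exists_int] at hz'
        obtain ⟨k, hk⟩ := hz'
        have h1 : (z 0 - z 1) / 2 = (k : ℂ) * Real.pi * Complex.I := by
          rw [hk]; ring
        simp only
        rw [h1, Complex.cosh_mul_I]
        have h2 : Complex.cos ((k : ℂ) * Real.pi) = ((Real.cos (k * Real.pi) : ℝ) : ℂ) := by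
          push_cast; rfl
        rw [h2, Complex.norm_real, Real.norm_eq_abs]
        exact Real.abs_cos_le_one _
      · refine ⟨![0, 0], ?_, ![2 * Real.pi * Complex.I, 0], ?_, ?_⟩
        · simp [hypersurface, Fin.sum_univ_two]
        · simp [hypersurface, Fin.sum_univ_two, Complex.exp_two_pi_mul_I]
        · simp only [Matrix.cons_val_zero, Matrix.cons_val_one]
          have h1 : (2 * (Real.pi : ℂ) * Complex.I - 0) / 2 = (Real.pi : ℂ) * Complex.I := by ring
          have h2 : ((0 : ℂ) - 0) / 2 = 0 := by ring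
          rw [h1, h2, Complex.cosh_zero, Complex.cosh_mul_I, Complex.cos_pi]
          norm_num

end Pool.Agent.Results.MP_448b0d_an.LiouvilleAllDimensions
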